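import Pool.Agent.H297.AS.NB
import Pool.Agent.H685.AS.VAp
import Pool.Agent.H357.AS.Firstp
import Pool.Agent.H962.AS.ARp
import Pool.Agent.H962.AS.RayMul
import Pool.Agent.H650.AS.ARS
import Pool.Agent.H643.AS.Bridge
import Pool.Agent.H662.AS.Mod

set_option autoImplicit false
set_option linter.unusedSectionVars false

/-!
# The law of reciprocity with a conductor supported at the ramified primes: everything together
-/

namespace Pool.Agent.H500.AS

theorem all_NB : S_NB := Pool.Agent.H297.AS.NB.main

theorem all_VAp : S_VAp := Pool.Agent.H685.AS.VAp.main all_NB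

theorem all_Firstp : S_Firstp := Pool.Agent.H357.AS.Firstp.main all_VAp

theorem all_ARp : S_ARp := Pool.Agent.H962.AS.ARp.main all_Firstp

theorem all_RayMul : S_RayMul := Pool.Agent.H962.AS.RayMul.main

theorem all_ARS : S_ARS := Pool.Agent.H650.AS.ARS.main all_ARp all_RayMul

theorem all_Bridge : S_Bridge := Pool.Agent.H643.AS.Bridge.main all_ARS

theorem all_Mod : S_Mod := Pool.Agent.H662.AS.Mod.main

end Pool.Agent.H500.AS
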