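import Pool.Agent.H500.HC.Defs
import Pool.Graph.R_pool_sql_team_seeded_3997aac3.Q92.AR.All

set_option autoImplicit false
set_option linter.unusedSectionVars false

/-!
# Project AS (helper500): the law of reciprocity with a conductor supported at the ramified primes

The library (`Pool.Agent.Q92.AR`, theorem `recip : S_AR`) proves Artin's law: for a character `ψ` of
`Gal(M/F)` there is some `N` with `art ψ (prin x) = 0` for `x ∈ Ray F N`.  Here: `N` may be taken to be a power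
of any `N` which is divisible by the primes that ramify in `M`, and the translation to characters of
the absolute Galois group with values in an arbitrary field.
-/

namespace Pool.Agent.H500.AS

open NumberField IsDedekindDomain Pool.Agent.Q5.BR Pool.Agent.Q92.AR
open Pool.Agent.W401.Cheb (GK IsFrob IsInert)
open Pool.Agent.H500.HC (InRay IsRayChar TotPos)

/-- all the primes of `F` above `p` are unramified in `E` -/
def UnrAt (F E : Type) [Field F] [NumberField F] [Field E] [NumberField E] [Algebra F E] (p : ℕ) :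
    Prop := ∀ v : HeightOneSpectrum (𝓞 F), (p : 𝓞 F) ∈ v.asIdeal → Unramified E v

/-- PART 1 (normal basis which is integral at `p`).
Proof.  For `v ∣ p` choose one prime `w0` of `E` above `v`, with decomposition group `D`, and `θ0` generating
a normal basis of the residue field of `w0` over the one of `v` (cyclic extension of finite fields,
`IsGalois.normalBasis`).  By the Chinese remainder theorem there is `θ ∈ 𝓞_E`, `θ ≡ θ0 mod w0`, `θ ≡ 0` modulo the
other primes above `v`, for all `v ∣ p` at the same time.  If `∑ c_g g(θ) ∈ v 𝓞_E`, `c_g ∈ 𝓞_F`, then modulo `h w0`: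
`h (∑_{d ∈ D} c_{hd} d(θ0)) = 0`, so `c_{hd} ∈ v`: the `g(θ)` are independent modulo `v`, and since `v` is
unramified (`v 𝓞_E = ∏ w`, dimension `[E : F]`) they are a basis of `𝓞_E / v 𝓞_E`.  So they are a basis of `E/F`
(clear denominators, or: the determinant of the matrix `(g h θ)` is not zero), and the index of
`⊕ 𝓞_F g(θ)` in `𝓞_E` is prime to `p` (Nakayama; or: a finite abelian group `A = 𝓞_E / ⊕` with `p A = A`; take for
`d` its exponent).  The trace of `θ` is a unit at all `v ∣ p` (otherwise `c_g = 1` would be a relation), so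
`t = θ / Tr θ`, `e = |N_{F/ℚ}(Tr θ)|`.  See `Pool.Agent.Q149.AR` (`exists_normal_basis`, `exists_coord_den`). -/
def S_NB : Prop := ∀ (F E : Type) [Field F] [NumberField F] [Field E] [NumberField E] [Algebra F E]
  [IsGalois F E] (p : ℕ), p.Prime → UnrAt F E p →
  ∃ b : Module.Basis (E ≃ₐ[F] E) F E, (∀ g, b g = g (b 1)) ∧ IsIntegral ℤ (b 1) ∧
    (∃ d : ℕ, ¬ p ∣ d ∧ ∀ x : E, IsIntegral ℤ x → ∀ g, IsIntegral ℤ ((d : F) * b.repr x g)) ∧
    ∃ t : E, Algebra.trace F E t = 1 ∧ ∃ e : ℕ, ¬ p ∣ e ∧ IsIntegral ℤ ((e : E) * t)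

/-- PART 2 (`S_VA` with moduli prime to `p`).  From `S_NB`: the proof of `Pool.Agent.Q149.AR.va` (file
`Q149/AR/VA.lean`) with `b`, `d`, `t`, `e` from `S_NB`, and `N = q * N0 * d * e`, `q ∈ {2, 3}` prime to `p`. -/
def S_VAp : Prop := ∀ (F E : Type) [Field F] [NumberField F] [Field E] [NumberField E] [Algebra F E]
  [IsGalois F E] (σ : E ≃ₐ[F] E), (∀ g : E ≃ₐ[F] E, g ∈ Subgroup.zpowers σ) →
  ∀ p : ℕ, p.Prime → UnrAt F E p →
  ∀ N0 : ℕ, N0 ≠ 0 → ¬ p ∣ N0 → ∃ N1 N2 : ℕ, N1 ≠ 0 ∧ N2 ≠ 0 ∧ ¬ p ∣ N2 ∧ N0 ∣ N1 ∧ N1 ∣ N2 ∧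
  (∃ k, N2 ∣ N1 ^ k) ∧
  ∃ A : Subgroup Eˣ, (∀ x ∈ A, Units.map (σ : E →* E) x ∈ A) ∧
  (∀ x ∈ A, Cong N1 (x : E)) ∧ (∀ x : Eˣ, Cong N2 (x : E) → x ∈ A) ∧
  ∀ x : Eˣ, Units.map (σ : E →* E) x / x ∈ A → ∃ c : Fˣ, x / up F E c ∈ A

/-- PART 3 (the first inequality for a modulus prime to `p`).  From `S_VAp`: the proof of
`Pool.Agent.Q182.AR.first` (file `Q182/AR/First.lean`; the other ingredients are the theorems in
`Pool.Agent.Q92.AR.All`: `all_Fin`, `all_SD`, `all_Q1`, `all_HAS`, …), starting from `N0 * Nr` with `Nr` (from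
`Pool.Agent.Q280.AR.rF`) replaced by its part prime to `p`. -/
def S_Firstp : Prop := ∀ (F E : Type) [Field F] [NumberField F] [Field E] [NumberField E]
  [Algebra F E] [IsGalois F E] (σ : E ≃ₐ[F] E), (∀ g : E ≃ₐ[F] E, g ∈ Subgroup.zpowers σ) →
  ∀ p : ℕ, p.Prime → UnrAt F E p →
  ∃ N : ℕ, N ≠ 0 ∧ ¬ p ∣ N ∧ Ram F E N ∧
  ((HN F E N).relIndex (Pr F N) = 0 ∨ Module.finrank F E ≤ (HN F E N).relIndex (Pr F N))

/-- PART 4 (reciprocity with a modulus prime to `p`).  From `S_Firstp`: the proofs of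
`Pool.Agent.Q125.AR.arc` (cyclic extensions) and `Pool.Agent.Q125.AR.ar` (files `Q125/AR/Arc.lean`,
`Final.lean`), with `all_Cls`, `all_NKer`, `all_Sec`, `Pool.Agent.Q225.AR.fr`, `Pool.Agent.Q14.AR.cheb`. (`UnrAt F M p`
implies `UnrAt F E p` for subextensions `E`: `Unramified.sub`.) -/
def S_ARp : Prop := ∀ (F M : Type) [Field F] [NumberField F] [Field M] [NumberField M] [Algebra F M]
  [IsGalois F M] (ψ : (M ≃ₐ[F] M) →* ℂˣ) (p : ℕ), p.Prime → UnrAt F M p →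
  ∃ N : ℕ, N ≠ 0 ∧ ¬ p ∣ N ∧ Ram F M N ∧ ∀ x ∈ Ray F N, art ψ (prin x) = 0

/-- PART 5 (rays).  Proof.  Let `N = ∏ p^a`, `N' = ∏ p^b`, `N1 = ∏_{a > b} p^a`, `N2 = ∏_{a ≤ b} p^b` (coprime).
Choose integers `w ≡ 1 mod N2^c`, `w ≡ 0 mod N1^c`, `c` large in terms of `x` (denominator of `x`, valuations),
`y0 = x w + (1 - w)`: then `y0 / x ≡ 1 mod N2` and `y0 ≡ 1 mod N1`.  `S_Sgn` (`Pool.Agent.Q84.AR.sgn`) gives
`z ≡ 1 mod N N'` with the signs of `y0`; `y = y0 z`, `y' = x / y`. -/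
def S_RayMul : Prop := ∀ (F : Type) [Field F] [NumberField F] (N N' : ℕ), N ≠ 0 → N' ≠ 0 →
  ∀ x ∈ Ray F (Nat.gcd N N'), ∃ y ∈ Ray F N, ∃ y' ∈ Ray F N', x = y * y'

/-- PART 6 (the conductor is supported at the ramified primes).  From `S_ARp`, `S_RayMul` and the library
theorem `recip : S_AR`.  Proof.  Let `N0` be from `recip`.  For every prime number `p ∣ N0`, `p ∤ N`, all primes
above `p` are unramified; let `N_p` be from `S_ARp`.  By `S_RayMul` the elements of the ray modulo the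
greatest common divisor `g` of `N0` and all `N_p` are in the kernel; all prime factors of `g` divide
`N`, so `g ∣ N^e`. -/
def S_ARS : Prop := ∀ (F M : Type) [Field F] [NumberField F] [Field M] [NumberField M] [Algebra F M]
  [IsGalois F M] (ψ : (M ≃ₐ[F] M) →* ℂˣ) (N : ℕ), N ≠ 0 → Ram F M N →
  ∃ e : ℕ, ∀ x ∈ Ray F (N ^ e), art ψ (prin x) = 0

/-- PART 7 (translation).  From `S_ARS`.  `θ` is a character of the absolute Galois group with values in a
field `k`, with open kernel, unramified outside `N`.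
Proof.  Let `M` be the field fixed by the kernel of `θ` (number field, Galois over `K`; compare
`Pool.Agent.H500.ML.exists_level`, `isFrob_restrict` in `Pool/Agent/H500/MLF.lean`).  The image of `θ` is a finite
subgroup of `kˣ`, so cyclic of some order `m`, and embeds in `ℂˣ`: `ψ : Gal(M/K) → ℂˣ`.  `M` is unramified at
the `v` which do not contain `N` (the inertia elements of the absolute Galois group map onto those of
`Gal(M/K)`; unramified iff there is no inertia; see `Pool.Agent.Q92.AR.Fro`, `Pool.Agent.Q92.RT`, or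
`rd_injective`), so `Ram K M N`.  `S_ARS` gives `e`.  Define `χ` on the ideals by unique factorization: `χ(𝔞) = ∏
θ(Frob_v)^{v(𝔞)}` for `𝔞 ≠ ⊥` prime to `N`, and `0` otherwise.  `χ((x))` corresponds to `art ψ (prin x)`. -/
def S_Bridge : Prop := ∀ (K : Type) [Field K] [NumberField K] (N : ℕ) (k : Type) [Field k]
  (θ : GK K →* kˣ), N ≠ 0 → IsOpen (θ.ker : Set (GK K)) →
  (∀ v : HeightOneSpectrum (𝓞 K), (N : 𝓞 K) ∉ v.asIdeal → ∀ σ, IsInert v σ → θ σ = 1) →
  ∃ (χ : Ideal (𝓞 K) →*₀ k) (e : ℕ),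
    (∀ 𝔞 : Ideal (𝓞 K), 𝔞 ≠ ⊥ → (χ 𝔞 ≠ 0 ↔ IsCoprime 𝔞 (Ideal.span {(N : 𝓞 K)}))) ∧
    (∀ x : 𝓞 K, InRay (N ^ e) x → χ (Ideal.span {x}) = 1) ∧
    (∀ v : HeightOneSpectrum (𝓞 K), (N : 𝓞 K) ∉ v.asIdeal → ∀ σ, IsFrob v σ →
      χ v.asIdeal = (θ σ : k)) ∧
    ∀ 𝔞 : Ideal (𝓞 K), χ 𝔞 ≠ 0 → ∃ σ, χ 𝔞 = (θ σ : k)

/-- PART 8 (bounded conductor).  `k` has characteristic `l`, `χ` is trivial on the ray modulo some power
of `N l`, the `r`-parts of the orders of its values are at most `r^κ` for the primes `r ∣ N`.  Then it is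
trivial on the ray modulo `N^(κ+2) l`.
Proof.  Let `x` be in this ray.  (a) `x^{l^e} ≡ 1 mod l^e` and `z^{l^e} = 1` implies `z = 1` in `k`; so assume
`x ≡ 1 mod l^e`.  (b) For `a ≥ 2` and `u ≡ 1 mod N^{a+1}` there is for every `j` an `y ≡ 1 mod N^a` with `y^N ≡ u mod N^j`
(successive approximation: `(y + N^{i} z)^N ≡ y^N + N^{i+1} z mod N^{i+2}`, `i ≥ a ≥ 2`).  `κ` times: there is
`y ≡ 1 mod N^2` with `y^{N^κ} ≡ x mod N^e`; by the Chinese remainder theorem `y ≡ 1 mod l^e`, `y` totally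
positive.  (c) `χ((x)) = χ((y))^{N^κ}`: with `y* = y^{N^κ (m - 1)}`, `y^m ≡ 1 mod (N l)^e`, both `x y*` and
`y^{N^κ} y*` are in the ray modulo `(N l)^e`.  (d) `y^{N^e}` is in the ray modulo `(N l)^e`, so the order of
`χ((y))` divides a power of `N`; by the hypothesis it divides `N^κ`. -/
def S_Mod : Prop := ∀ (K : Type) [Field K] [NumberField K] (N l e κ : ℕ) (k : Type) [Field k]
  (χ : Ideal (𝓞 K) →*₀ k), 2 ≤ N → l.Prime → ¬ l ∣ N → (l : k) = 0 →
  (∀ 𝔞 : Ideal (𝓞 K), 𝔞 ≠ ⊥ → (χ 𝔞 ≠ 0 ↔ IsCoprime 𝔞 (Ideal.span {((N * l : ℕ) : 𝓞 K)}))) →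
  (∀ x : 𝓞 K, InRay ((N * l) ^ e) x → χ (Ideal.span {x}) = 1) →
  (∀ 𝔞 : Ideal (𝓞 K), χ 𝔞 ≠ 0 → ∃ m : ℕ, χ 𝔞 ^ m = 1 ∧ ∀ r : ℕ, r.Prime → r ∣ N → ¬ r ^ (κ + 1) ∣ m) →
  IsRayChar (N ^ (κ + 2) * l) χ

end Pool.Agent.H500.AS
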